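import Pool.Agent.helper10.RG.SpecB

/-!
# Row rgb:INTQ (MP_2e0e07_nt)
-/

set_option autoImplicit false

universe u

namespace Pool.Agent.RG

theorem INTQ_down {E : Type u} [Field E] (q : ℕ) (h : IsUnr E q) (c : E) (hc : IsIntegral ℤ c) (j : ℕ) :
    IsIntegral ℤ (c ^ (2 ^ j) / (q : E)) → IsIntegral ℤ (c / (q : E)) := by
  induction j with
  | zero =>
    intro h1
    simpa using h1
  | succ j ih =>
    intro h1
    apply ih
    apply h.2 (c ^ (2 ^ j)) (hc.pow _)
    rw [← pow_mul, ← pow_succ]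
    exact h1

theorem INTQ_zero {E : Type u} [Field E] [NumberField E] (q : ℕ) (hq : 2 ≤ q) (c : E)
    (hc : IsIntegral ℤ (c / (q : E))) (hσ : ∀ σ : E →+* ℂ, ‖σ c‖ < q) : c = 0 := by
  by_contra hne
  have hq0 : (q : E) ≠ 0 := by
    have : q ≠ 0 := by omega
    exact_mod_cast this
  have hqr : (0 : ℝ) < q := by
    have : 0 < q := by omega
    exact_mod_cast this
  have hx : c / (q : E) ≠ 0 := div_ne_zero hne hq0
  have hlt : ∀ σ : E →+* ℂ, ‖σ (c / (q : E))‖ < 1 := by
    intro σ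
    rw [map_div₀, map_natCast, norm_div, Complex.norm_natCast, div_lt_one hqr]
    exact hσ σ
  obtain ⟨n, hn, h1⟩ := NumberField.Embeddings.pow_eq_one_of_norm_le_one (K := E) (A := ℂ) hx hc
    (fun σ => (hlt σ).le)
  obtain ⟨σ⟩ : Nonempty (E →+* ℂ) := inferInstance
  have h2 : ‖σ (c / (q : E))‖ ^ n = 1 := by
    rw [← norm_pow, ← map_pow, h1, map_one, norm_one]
  have h3 : ‖σ (c / (q : E))‖ ^ n < 1 := pow_lt_one₀ (norm_nonneg _) (hlt σ) (by omega)
  linarith

theorem INTQ : INTQ_stmt.{u} := by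
  intro E _ _ q
  refine ⟨?_, ?_, ?_⟩
  · intro h c k hk hc hck
    apply INTQ_down q h c hc k
    have hle : k ≤ 2 ^ k := Nat.lt_two_pow_self.le
    have : c ^ (2 ^ k) / (q : E) = c ^ (2 ^ k - k) * (c ^ k / (q : E)) := by
      rw [← mul_div_assoc, ← pow_add, Nat.sub_add_cancel hle]
    rw [this]
    exact (hc.pow _).mul hck
  · intro hq c hc hσ
    exact INTQ_zero q hq c hc hσ
  · intro hq h
    have h0 : (1 : E) = 0 := by
      apply INTQ_zero q hq 1 h
      intro σ
      rw [map_one, norm_one]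
      exact_mod_cast hq
    exact one_ne_zero h0

end Pool.Agent.RG
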